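import Pool.Agent.H487.GP.Stm2
import Pool.Agent.H685.GP.XXA

/-!
# Project GP: the increments of the argument are linear statistics, uniformly (helper685): `S_XXAU`
-/

set_option autoImplicit false

open Finset Complex Filter Topology Metric Set MeasureTheory

namespace Pool.Agent.H685.GPU

open Pool.Agent.Helper242.KK (FT Ph)
open Pool.Agent.H477.Jen
open Pool.Agent.H477.E
open Pool.Agent.H487.GA
open Pool.Agent.H487.GP
open Pool.Agent.H969.GA.POI (count XF_eq chi_zero Fy_int)
open Pool.Agent.H790.GA (FT_entire)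
open Pool.Agent.H685.GP (avg int_of_C2c Gv_integral Gv_supp U_meas)

noncomputable section

theorem xxau_proof : Pool.Agent.H487.GA.S_UAP → Pool.Agent.H487.GA.S_L1Y → S_DIFK → S_KBH →
    S_XXAU := by
  intro h1 h2 h3 h4 v1 ε hv1 hε
  obtain ⟨C1, K1, T1, hC1, hK1, hT1, H1⟩ := h1.1
  obtain ⟨C2, T2, hC2, hT2, H2⟩ := h2
  obtain ⟨c, V, hc, hV, H3⟩ := h3
  obtain ⟨C4, hC4, H4⟩ := h4
  obtain ⟨Cz, hCz, Hz⟩ := count
  obtain ⟨δ5, K5, T5, hδ5, hK5, hT5, H5⟩ := h1.2 (ε / (4 * v1)) (by positivity)
  obtain ⟨D, hD⟩ : ∃ D : ℝ, D = C2 * Real.sqrt (V + 1) / c := ⟨_, rfl⟩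
  have hD0 : 0 ≤ D := by rw [hD]; positivity
  refine ⟨min (min δ5 (1 / (2 * v1))) (min 1 (ε / (2 * v1 * (D + 1)))), max K1 K5,
    max (max T1 T2) T5, by positivity, hK1.trans (le_max_left _ _),
    (hT1.trans (le_max_left _ _)).trans (le_max_left _ _),
    fun v hv hvv T hT y hy hyδ hyK => ?_⟩
  have hTa : T1 ≤ T := ((le_max_left _ _).trans (le_max_left _ _)).trans hT
  have hTb : T2 ≤ T := ((le_max_right _ _).trans (le_max_left _ _)).trans hT
  have hTc : T5 ≤ T := (le_max_right _ _).trans hT
  have hT10 : 10 ≤ T := hT1.trans hTa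
  have hT0 : 0 < T := by linarith
  have hL : 1 ≤ Real.log T := by
    rw [Real.le_log_iff_exp_le (by linarith)]
    linarith [Real.exp_one_lt_three]
  have hy5 : y ≤ δ5 := (hyδ.trans (min_le_left _ _)).trans (min_le_left _ _)
  have hyv : y ≤ 1 / (2 * v1) := (hyδ.trans (min_le_left _ _)).trans (min_le_right _ _)
  have hy1 : y ≤ 1 := (hyδ.trans (min_le_right _ _)).trans (min_le_left _ _)
  have hyD : y ≤ ε / (2 * v1 * (D + 1)) := (hyδ.trans (min_le_right _ _)).trans (min_le_right _ _)
  have hK1' : K1 ≤ y * Real.log T := (le_max_left _ _).trans hyK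
  have hK5' : K5 ≤ y * Real.log T := (le_max_right _ _).trans hyK
  have hh : 0 < v * y := by positivity
  have hh2 : v * y ≤ 1 / 2 := by
    calc v * y ≤ v1 * (1 / (2 * v1)) := mul_le_mul hvv hyv hy.le hv1.le
      _ = 1 / 2 := by field_simp
  obtain ⟨Z, hZ, -⟩ := Hz T hT10
  obtain ⟨hFh, hFhs, -⟩ := H4 y hy (by linarith)
  have hFhc : Continuous (Fh y) := hFh.cd.continuous
  have hFhi : Integrable (Fh y) := int_of_C2c hFh
  have hFyi : Integrable (Fy y) := Fy_int hy
  have hadm := H3 y (Real.log T) hy (by linarith) hL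
  obtain ⟨hXc, hXl⟩ := H2 T hTb V _ hV.le hadm
  -- the interval
  set A : ℝ := T + 3 * Real.log T with hA
  set B : ℝ := 2 * T - 3 * Real.log T - 1 with hB
  have hB1 : 2 * T - 3 * Real.log T = B + 1 := by rw [hB]; ring
  have hU1 := H1 T hTa y hy (by linarith) hK1'
  have hU2 := H5 T hTc y hy hy5 hK5'
  rw [← hA, hB1] at hU1 hU2
  have hJ2 : Icc A (B + 1) ⊆ Icc (T + 2 * Real.log T) (2 * T - 2 * Real.log T) :=
    Icc_subset_Icc (by linarith) (by linarith)
  set U : ℝ → ℝ := fun τ => UU T ((τ : ℂ) - I * y) with hU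
  have hUm : Measurable U := U_meas T y
  have hUi : IntegrableOn U (Icc A (B + 1)) := by
    have h5 : IntegrableOn (fun τ => y * U τ) (Icc A (B + 1)) := by
      refine ⟨(hUm.const_mul y).aestronglyMeasurable, ?_⟩
      unfold HasFiniteIntegral
      simp only [Real.enorm_eq_ofReal_abs]
      exact lt_of_le_of_lt hU1 ENNReal.ofReal_lt_top
    have h6 : U = fun τ => y⁻¹ * (y * U τ) := by
      funext τ
      rw [← mul_assoc, inv_mul_cancel₀ hy.ne', one_mul]
    rw [h6]
    exact h5.const_mul y⁻¹
  -- the sums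
  obtain ⟨P1, hP1⟩ : ∃ P1 : ℝ → ℝ, P1 = fun τ => ∑ s ∈ Z, (mz s : ℝ) * Fy y (s.im - τ) -
      Real.log T / (2 * Real.pi) * ∫ x : ℝ, Fy y x := ⟨_, rfl⟩
  obtain ⟨P2, hP2⟩ : ∃ P2 : ℝ → ℝ, P2 = fun τ => ∑ s ∈ Z, (mz s : ℝ) * Fh y (s.im - τ) -
      Real.log T / (2 * Real.pi) * ∫ x : ℝ, Fh y x := ⟨_, rfl⟩
  have hX1 : ∀ τ ∈ Icc A (B + 1), XF (Fy y) T τ = P1 τ := by
    intro τ hτ
    rw [hP1]
    refine XF_eq hZ (Fy y) (fun x hx => ?_) τ (by linarith [hτ.1]) (by linarith [hτ.2])
    unfold Fy
    rw [chi_zero hx, mul_zero]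
  have hX3 : ∀ τ ∈ Icc A (B + 1), XF (fun x => c / y ^ 2 * (Fy y x - Fh y x)) T τ =
      c / y ^ 2 * (P1 τ - P2 τ) := by
    intro τ hτ
    rw [XF_eq hZ (fun x => c / y ^ 2 * (Fy y x - Fh y x)) hadm.c2.supp τ (by linarith [hτ.1])
      (by linarith [hτ.2]), integral_const_mul, integral_sub hFyi hFhi, hP1, hP2]
    have e : ∑ s ∈ Z, (mz s : ℝ) * (c / y ^ 2 * (Fy y (s.im - τ) - Fh y (s.im - τ))) =
        c / y ^ 2 * (∑ s ∈ Z, (mz s : ℝ) * Fy y (s.im - τ) -
          ∑ s ∈ Z, (mz s : ℝ) * Fh y (s.im - τ)) := by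
      rw [← Finset.sum_sub_distrib, Finset.mul_sum]
      exact Finset.sum_congr rfl fun s _ => by ring
    rw [e]
    ring
  have hP2c : Continuous P2 := by
    rw [hP2]
    refine Continuous.sub ?_ continuous_const
    refine continuous_finsetSum _ fun s _ => continuous_const.mul (hFhc.comp ?_)
    exact continuous_const.sub continuous_id
  obtain ⟨q, hq⟩ : ∃ q : ℝ → ℝ, q = fun τ => y * U τ - P2 τ := ⟨_, rfl⟩
  have hqm : Measurable q := by
    rw [hq]
    exact (hUm.const_mul y).sub hP2c.measurable
  -- the identity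
  have hmain : ∀ t ∈ Icc A B, XX v T y t - XF (Gv v y) T t =
      1 / y * ∫ w in (0 : ℝ)..(v * y), q (t + w) := by
    intro t ht
    have hIU : IntervalIntegrable (fun w => U (t + w)) volume 0 (v * y) := by
      have h5 : IntervalIntegrable U volume t (t + v * y) := by
        refine (hUi.mono_set ?_).intervalIntegrable
        rw [Set.uIcc_of_le (by linarith)]
        exact Icc_subset_Icc ht.1 (by linarith [ht.2])
      have h6 := h5.comp_add_left t
      rw [sub_self, add_sub_cancel_left] at h6
      exact h6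
    have hIP : IntervalIntegrable (fun w => P2 (t + w)) volume 0 (v * y) :=
      (hP2c.comp (continuous_const.add continuous_id)).intervalIntegrable _ _
    have e1 : ∫ w in (0 : ℝ)..(v * y), q (t + w) = y * (∫ w in (0 : ℝ)..(v * y), U (t + w)) -
        ∫ w in (0 : ℝ)..(v * y), P2 (t + w) := by
      rw [hq]
      simp only []
      rw [intervalIntegral.integral_sub (hIU.const_mul y) hIP, intervalIntegral.integral_const_mul]
    have e2 : XX v T y t = ∫ w in (0 : ℝ)..(v * y), U (t + w) := rfl
    have e3 : ∫ w in (0 : ℝ)..(v * y), P2 (t + w) =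
        ∑ s ∈ Z, (mz s : ℝ) * (∫ w in (0 : ℝ)..(v * y), Fh y (s.im - t - w)) -
          v * y * (Real.log T / (2 * Real.pi) * ∫ x : ℝ, Fh y x) := by
      rw [hP2]
      have hIs : ∀ s ∈ Z, IntervalIntegrable (fun w => (mz s : ℝ) * Fh y (s.im - (t + w))) volume
          0 (v * y) := by
        intro s _
        refine Continuous.intervalIntegrable ?_ _ _
        exact continuous_const.mul (hFhc.comp
          (continuous_const.sub (continuous_const.add continuous_id)))
      rw [intervalIntegral.integral_sub, intervalIntegral.integral_finsetSum hIs,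
        intervalIntegral.integral_const, sub_zero, smul_eq_mul]
      · congr 1
        refine Finset.sum_congr rfl fun s _ => ?_
        rw [intervalIntegral.integral_const_mul]
        congr 1
        refine intervalIntegral.integral_congr fun w _ => ?_
        rw [sub_sub]
      · refine Continuous.intervalIntegrable ?_ _ _
        exact continuous_finsetSum _ fun s _ => continuous_const.mul (hFhc.comp
          (continuous_const.sub (continuous_const.add continuous_id)))
      · exact intervalIntegrable_const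
    have e4 : XF (Gv v y) T t = 1 / y * ∫ w in (0 : ℝ)..(v * y), P2 (t + w) := by
      rw [XF_eq hZ (Gv v y) (Gv_supp hh hh2 hFhs) t (by linarith [ht.1]) (by linarith [ht.2]), e3,
        Gv_integral hh hFhi, mul_sub, Finset.mul_sum]
      congr 1
      · refine Finset.sum_congr rfl fun s _ => ?_
        unfold Gv
        ring
      · ring
    rw [e1, e2, e4]
    field_simp
  have hm : Measurable (fun t => 1 / y * ∫ w in (0 : ℝ)..(v * y), q (t + w)) := by
    refine Measurable.const_mul ?_ _
    have h5 : (fun t => ∫ w in (0 : ℝ)..(v * y), q (t + w)) =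
        fun t => ∫ w in Ioc 0 (v * y), q (t + w) := by
      funext t
      rw [intervalIntegral.integral_of_le hh.le]
    rw [h5]
    have h6 : StronglyMeasurable (fun p : ℝ × ℝ => q (p.1 + p.2)) :=
      (hqm.comp (measurable_fst.add measurable_snd)).stronglyMeasurable
    exact (h6.integral_prod_right' (ν := volume.restrict (Ioc 0 (v * y)))).measurable
  constructor
  · refine ⟨_, hm, ?_⟩
    rw [Filter.EventuallyEq, ae_restrict_iff' measurableSet_Icc]
    exact ae_of_all _ hmain
  · have hq1 : ∫⁻ t in Icc A (B + 1), ENNReal.ofReal |q t| ≤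
        ENNReal.ofReal (ε / (4 * v1) * T) + ENNReal.ofReal (D * y ^ 2 * T) := by
      have h5 : ∫⁻ t in Icc A (B + 1), ENNReal.ofReal |P1 t - P2 t| ≤
          ENNReal.ofReal (D * y ^ 2 * T) := by
        calc ∫⁻ t in Icc A (B + 1), ENNReal.ofReal |P1 t - P2 t|
            = ∫⁻ t in Icc A (B + 1), ENNReal.ofReal (y ^ 2 / c) *
                ENNReal.ofReal |XF (fun x => c / y ^ 2 * (Fy y x - Fh y x)) T t| := by
              refine setLIntegral_congr_fun measurableSet_Icc fun t ht => ?_
              rw [hX3 t ht, ← ENNReal.ofReal_mul (by positivity), abs_mul,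
                abs_of_pos (by positivity : 0 < c / y ^ 2)]
              congr 1
              field_simp
          _ = ENNReal.ofReal (y ^ 2 / c) * ∫⁻ t in Icc A (B + 1),
                ENNReal.ofReal |XF (fun x => c / y ^ 2 * (Fy y x - Fh y x)) T t| :=
              lintegral_const_mul' _ _ ENNReal.ofReal_ne_top
          _ ≤ ENNReal.ofReal (y ^ 2 / c) * ENNReal.ofReal (C2 * T * Real.sqrt (V + 1)) :=
              mul_le_mul_right ((lintegral_mono_set hJ2).trans hXl) _
          _ = ENNReal.ofReal (D * y ^ 2 * T) := by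
              rw [← ENNReal.ofReal_mul (by positivity), hD]
              congr 1
              ring
      have hPm : AEMeasurable (fun t => ENNReal.ofReal |y * U t - XF (Fy y) T t|)
          (volume.restrict (Icc A (B + 1))) := by
        have h6 : Measurable (fun t => ENNReal.ofReal |y * U t - P1 t|) := by
          refine (((hUm.const_mul y).sub ?_).abs).ennreal_ofReal
          rw [hP1]
          refine Measurable.sub_const ?_ _
          refine Finset.measurable_sum _ fun s _ => ?_
          refine Measurable.const_mul ?_ _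
          have h7 : Measurable (Fy y) := by
            have h8 : Continuous (Fy y) := by
              unfold Fy
              refine Continuous.mul ?_ Pool.Agent.H969.GA.POI.chi_cont
              refine continuous_const.div (by fun_prop) fun x => ?_
              positivity
            exact h8.measurable
          exact h7.comp (measurable_const.sub measurable_id)
        refine ⟨_, h6, ?_⟩
        rw [Filter.EventuallyEq, ae_restrict_iff' measurableSet_Icc]
        exact ae_of_all _ fun t ht => by rw [hX1 t ht]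
      calc ∫⁻ t in Icc A (B + 1), ENNReal.ofReal |q t|
          ≤ ∫⁻ t in Icc A (B + 1), (ENNReal.ofReal |y * U t - XF (Fy y) T t| +
              ENNReal.ofReal |P1 t - P2 t|) := by
            refine setLIntegral_mono' measurableSet_Icc fun t ht => ?_
            rw [← ENNReal.ofReal_add (abs_nonneg _) (abs_nonneg _)]
            apply ENNReal.ofReal_le_ofReal
            rw [hX1 t ht, hq]
            have e : y * U t - P2 t = (y * U t - P1 t) + (P1 t - P2 t) := by ring
            change |y * U t - P2 t| ≤ _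
            rw [e]
            exact abs_add_le _ _
        _ = (∫⁻ t in Icc A (B + 1), ENNReal.ofReal |y * U t - XF (Fy y) T t|) +
              ∫⁻ t in Icc A (B + 1), ENNReal.ofReal |P1 t - P2 t| := lintegral_add_left' hPm _
        _ ≤ _ := add_le_add hU2 h5
    calc ∫⁻ t in Icc A B, ENNReal.ofReal |XX v T y t - XF (Gv v y) T t|
        = ∫⁻ t in Icc A B, ENNReal.ofReal (1 / y) *
            ENNReal.ofReal |∫ w in (0 : ℝ)..(v * y), q (t + w)| := by
          refine setLIntegral_congr_fun measurableSet_Icc fun t ht => ?_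
          rw [hmain t ht, abs_mul, abs_of_pos (by positivity : 0 < 1 / y),
            ENNReal.ofReal_mul (by positivity)]
      _ = ENNReal.ofReal (1 / y) * ∫⁻ t in Icc A B,
            ENNReal.ofReal |∫ w in (0 : ℝ)..(v * y), q (t + w)| :=
          lintegral_const_mul' _ _ ENNReal.ofReal_ne_top
      _ ≤ ENNReal.ofReal (1 / y) * (ENNReal.ofReal (v * y) *
            (ENNReal.ofReal (ε / (4 * v1) * T) + ENNReal.ofReal (D * y ^ 2 * T))) :=
          mul_le_mul_right ((avg hqm hh (by linarith)).trans (mul_le_mul_right hq1 _)) _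
      _ = ENNReal.ofReal (1 / y * (v * y * (ε / (4 * v1) * T + D * y ^ 2 * T))) := by
          rw [← ENNReal.ofReal_add (by positivity) (by positivity),
            ← ENNReal.ofReal_mul (by positivity), ← ENNReal.ofReal_mul (by positivity)]
      _ ≤ ENNReal.ofReal (ε * T) := by
          apply ENNReal.ofReal_le_ofReal
          have e1 : 1 / y * (v * y * (ε / (4 * v1) * T + D * y ^ 2 * T)) =
              v * (ε / (4 * v1) * T) + v * (D * y ^ 2 * T) := by
            field_simp
          have e6 : v * (ε / (4 * v1) * T) ≤ ε / 4 * T := by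
            calc v * (ε / (4 * v1) * T) ≤ v1 * (ε / (4 * v1) * T) :=
                  mul_le_mul_of_nonneg_right hvv (by positivity)
              _ = ε / 4 * T := by field_simp
          have e7 : v * (D * y ^ 2 * T) ≤ v1 * (D * y ^ 2 * T) :=
            mul_le_mul_of_nonneg_right hvv (by positivity)
          rw [e1]
          have e2 : y * (2 * v1 * (D + 1)) ≤ ε := by
            rwa [le_div_iff₀ (by positivity)] at hyD
          have e3 : y ^ 2 ≤ y := by nlinarith
          have e4 : v1 * D * y ^ 2 ≤ v1 * D * y := mul_le_mul_of_nonneg_left e3 (by positivity)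
          have e5 : v1 * D * y ≤ ε / 2 := by nlinarith [mul_pos hv1 hy]
          nlinarith

end

end Pool.Agent.H685.GPU
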